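import Pool.Agent.H77.TL.ToolStm

set_option autoImplicit false

namespace Pool.MP324

theorem cc_lo : (1549082004 : ℝ) ≤ cc * 2 ^ 30 := by
  have h1 := Real.log_two_lt_d9
  have h0 : (0:ℝ) < Real.log 2 := Real.log_pos (by norm_num)
  unfold cc
  rw [one_div_mul_eq_div, le_div_iff₀ h0]
  nlinarith

theorem cc_hi : cc * 2 ^ 30 ≤ (1549082006 : ℝ) := by
  have h1 := Real.log_two_gt_d9
  have h0 : (0:ℝ) < Real.log 2 := Real.log_pos (by norm_num)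
  unfold cc
  rw [one_div_mul_eq_div, div_le_iff₀ h0]
  nlinarith

theorem dn_le (n : ℕ) : (dn n : ℝ) * 2 ^ 30 ≤ (n : ℝ) := by
  have : dn n = n / 2 ^ 30 := by
    unfold dn
    exact Nat.shiftRight_eq_div_pow n 30
  rw [this]
  have h := Nat.div_mul_le_self n (2 ^ 30)
  exact_mod_cast h

theorem lt_dn (n : ℕ) : (n : ℝ) ≤ ((dn n : ℝ) + 1) * 2 ^ 30 := by
  have : dn n = n / 2 ^ 30 := by
    unfold dn
    exact Nat.shiftRight_eq_div_pow n 30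
  rw [this]
  have h := Nat.lt_div_mul_add (a := n) (b := 2 ^ 30) (by norm_num)
  have h2 : n ≤ (n / 2 ^ 30 + 1) * 2 ^ 30 := by
    rw [Nat.add_mul, Nat.one_mul]; exact h.le
  exact_mod_cast h2

/-- the logarithm by the series -/
theorem log_ser (hS : S_SER) (z : ℝ) (hz : 1 ≤ z) :
    Real.logb 2 z = cc * (2 * ((z - 1) / (z + 1)) * alf (((z - 1) / (z + 1)) ^ 2)) := by
  have hv0 : 0 ≤ (z - 1) / (z + 1) := div_nonneg (by linarith) (by linarith)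
  have hv1 : (z - 1) / (z + 1) < 1 := by
    rw [div_lt_one (by linarith)]; linarith
  have h := (hS.2.2.2.2.2.2 _ hv0 hv1).1
  rw [← h]
  have h1 : 1 + (z - 1) / (z + 1) = 2 * z / (z + 1) := by
    field_simp; ring
  have h2 : 1 - (z - 1) / (z + 1) = 2 / (z + 1) := by
    field_simp; ring
  rw [h1, h2, Real.log_div (by positivity) (by positivity), Real.log_div (by norm_num) (by positivity),
    Real.log_mul (by norm_num) (by positivity)]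
  unfold cc Real.logb
  ring

theorem alf_pos {Y : ℝ} (h0 : 0 ≤ Y) : 0 ≤ alf Y := by
  unfold alf
  exact tsum_nonneg fun k => by positivity

theorem LO_real (hS : S_SER) (v : ℝ) (hv0 : 0 ≤ v) (hv1 : v ≤ 1 / 3) (u U s A1 r : ℕ)
    (huv : (u : ℝ) ≤ v * 2 ^ 30) (hU : (U : ℝ) * 2 ^ 30 ≤ (u : ℝ) * u)
    (hs : U ≤ 2 ^ 29 → (s : ℝ) ≤ alf ((U : ℝ) / 2 ^ 30) * 2 ^ 30)
    (hA : (A1 : ℝ) * 2 ^ 30 ≤ 2 * (u : ℝ) * s) (hr : (r : ℝ) * 2 ^ 30 ≤ (A1 : ℝ) * 1549082004) :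
    (r : ℝ) ≤ cc * (2 * v * alf (v ^ 2)) * 2 ^ 30 := by
  have hv9 : v ^ 2 ≤ 1 / 9 := by nlinarith
  have hUv : (U : ℝ) / 2 ^ 30 ≤ v ^ 2 := by
    rw [div_le_iff₀ (by positivity)]
    have h3 : (u : ℝ) * u ≤ (v * 2 ^ 30) * (v * 2 ^ 30) := by gcongr
    nlinarith
  have hU29' : (U : ℝ) ≤ 2 ^ 29 := by
    rw [div_le_iff₀ (by positivity)] at hUv
    nlinarith
  have hU29 : U ≤ 2 ^ 29 := by exact_mod_cast hU29'
  have hser := hs hU29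
  have hU0 : (0:ℝ) ≤ (U : ℝ) / 2 ^ 30 := by positivity
  have hmono : alf ((U : ℝ) / 2 ^ 30) ≤ alf (v ^ 2) := by
    refine hS.2.2.2.1 ⟨hU0, by linarith⟩ ⟨by positivity, by linarith⟩ hUv
  have ha0 : 0 ≤ alf (v ^ 2) := alf_pos (by positivity)
  have hs2 : (s : ℝ) ≤ alf (v ^ 2) * 2 ^ 30 := hser.trans (by gcongr)
  have hA2 : (A1 : ℝ) ≤ 2 * v * alf (v ^ 2) * 2 ^ 30 := by
    have : 2 * (u : ℝ) * s ≤ 2 * (v * 2 ^ 30) * (alf (v ^ 2) * 2 ^ 30) := by gcongr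
    have h4 : (A1 : ℝ) * 2 ^ 30 ≤ (2 * v * alf (v ^ 2) * 2 ^ 30) * 2 ^ 30 := by
      refine hA.trans (this.trans (le_of_eq (by ring)))
    exact le_of_mul_le_mul_right h4 (by positivity)
  have hc := cc_lo
  have h5 : (r : ℝ) * 2 ^ 30 ≤ (cc * (2 * v * alf (v ^ 2)) * 2 ^ 30) * 2 ^ 30 := by
    refine hr.trans ?_
    have : (A1 : ℝ) * 1549082004 ≤ (2 * v * alf (v ^ 2) * 2 ^ 30) * (cc * 2 ^ 30) := by
      have h0' : (0:ℝ) ≤ 2 * v * alf (v ^ 2) * 2 ^ 30 := by positivity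
      exact mul_le_mul hA2 hc (by norm_num) h0'
    refine this.trans (le_of_eq (by ring))
  exact le_of_mul_le_mul_right h5 (by positivity)

theorem HI_real (hS : S_SER) (v : ℝ) (hv0 : 0 ≤ v) (hv1 : v ≤ 1 / 3) (u U s A1 r : ℕ)
    (huv : v * 2 ^ 30 ≤ (u : ℝ)) (huu : (u : ℝ) ≤ v * 2 ^ 30 + 1)
    (hU : (u : ℝ) * u ≤ (U : ℝ) * 2 ^ 30) (hU' : ((U : ℝ) - 1) * 2 ^ 30 ≤ (u : ℝ) * u)
    (hs : U ≤ 2 ^ 29 → alf ((U : ℝ) / 2 ^ 30) * 2 ^ 30 ≤ (s : ℝ))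
    (hA : 2 * (u : ℝ) * s ≤ (A1 : ℝ) * 2 ^ 30) (hr : (A1 : ℝ) * 1549082006 ≤ (r : ℝ) * 2 ^ 30) :
    cc * (2 * v * alf (v ^ 2)) * 2 ^ 30 ≤ (r : ℝ) := by
  have hv9 : v ^ 2 ≤ 1 / 9 := by nlinarith
  have hu0 : (0:ℝ) ≤ u := by positivity
  have hUv : v ^ 2 ≤ (U : ℝ) / 2 ^ 30 := by
    rw [le_div_iff₀ (by positivity)]
    have h3 : (v * 2 ^ 30) * (v * 2 ^ 30) ≤ (u : ℝ) * u := by gcongr
    nlinarith
  have hU29' : (U : ℝ) ≤ 2 ^ 29 := by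
    have h6 : (u : ℝ) ≤ 2 ^ 30 / 3 + 1 := by nlinarith
    have h8 : (u : ℝ) * u ≤ (2 ^ 30 / 3 + 1) * (2 ^ 30 / 3 + 1) := by gcongr
    have h9 : ((U : ℝ) - 1) * 2 ^ 30 ≤ (2 ^ 30 / 3 + 1) * (2 ^ 30 / 3 + 1) := by linarith
    have e29 : (2:ℝ) ^ 29 = 536870912 := by norm_num
    rw [e29]
    norm_num at h9
    linarith
  have hU29 : U ≤ 2 ^ 29 := by exact_mod_cast hU29'
  have hser := hs hU29
  have hU0 : (0:ℝ) ≤ (U : ℝ) / 2 ^ 30 := by positivity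
  have hU1 : (U : ℝ) / 2 ^ 30 ≤ 1 / 2 := by
    rw [div_le_iff₀ (by positivity)]
    have e29 : (2:ℝ) ^ 29 = 1 / 2 * 2 ^ 30 := by norm_num
    rw [← e29]
    exact hU29'
  have hmono : alf (v ^ 2) ≤ alf ((U : ℝ) / 2 ^ 30) :=
    hS.2.2.2.1 ⟨by positivity, by linarith⟩ ⟨hU0, hU1⟩ hUv
  have ha0 : 0 ≤ alf (v ^ 2) := alf_pos (by positivity)
  have hs2 : alf (v ^ 2) * 2 ^ 30 ≤ (s : ℝ) := le_trans (by gcongr) hser
  have hA2 : 2 * v * alf (v ^ 2) * 2 ^ 30 ≤ (A1 : ℝ) := by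
    have : 2 * (v * 2 ^ 30) * (alf (v ^ 2) * 2 ^ 30) ≤ 2 * (u : ℝ) * s := by gcongr
    have h4 : (2 * v * alf (v ^ 2) * 2 ^ 30) * 2 ^ 30 ≤ (A1 : ℝ) * 2 ^ 30 := by
      refine le_trans (le_of_eq (by ring)) (this.trans hA)
    exact le_of_mul_le_mul_right h4 (by positivity)
  have hc := cc_hi
  have hc0 : 0 ≤ cc * 2 ^ 30 := le_trans (by norm_num) cc_lo
  have h5 : (cc * (2 * v * alf (v ^ 2)) * 2 ^ 30) * 2 ^ 30 ≤ (r : ℝ) * 2 ^ 30 := by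
    refine le_trans ?_ hr
    have : (2 * v * alf (v ^ 2) * 2 ^ 30) * (cc * 2 ^ 30) ≤ (A1 : ℝ) * 1549082006 := by
      have h0' : (0:ℝ) ≤ A1 := by positivity
      exact mul_le_mul hA2 hc hc0 h0'
    refine le_trans (le_of_eq (by ring)) this
  exact le_of_mul_le_mul_right h5 (by positivity)

theorem cast_mul' (a b : ℕ) : ((Nat.mul a b : ℕ) : ℝ) = (a : ℝ) * b := Nat.cast_mul a b
theorem cast_add1 (a : ℕ) : ((Nat.add a 1 : ℕ) : ℝ) = (a : ℝ) + 1 := Nat.cast_succ a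

theorem u_lo (x N : ℕ) (h0 : N ≤ x) :
    ((Nat.div (Nat.mul (Nat.sub x N) N) (Nat.add x N) : ℕ) : ℝ)
      ≤ ((x : ℝ) - N) / ((x : ℝ) + N) * N := by
  have : Nat.div (Nat.mul (Nat.sub x N) N) (Nat.add x N) = ((x - N) * N) / (x + N) := rfl
  rw [this]
  refine Nat.cast_div_le.trans ?_
  rw [Nat.cast_mul, Nat.cast_sub h0, Nat.cast_add, div_mul_eq_mul_div]

theorem u_hi (x N : ℕ) (h0 : N ≤ x) (hN : 0 < N) :
    ((x : ℝ) - N) / ((x : ℝ) + N) * N ≤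
    ((Nat.div (Nat.mul (Nat.sub x N) N) (Nat.add x N) : ℕ) : ℝ) + 1 := by
  have : Nat.div (Nat.mul (Nat.sub x N) N) (Nat.add x N) = ((x - N) * N) / (x + N) := rfl
  rw [this]
  have hN' : (0:ℝ) < N := by exact_mod_cast hN
  have hx' : (0:ℝ) ≤ x := by positivity
  have h3 : ((x - N) * N) < (((x - N) * N) / (x + N) + 1) * (x + N) := by
    have := Nat.lt_div_mul_add (a := (x - N) * N) (b := x + N) (by positivity)
    rw [Nat.add_mul, Nat.one_mul]; exact this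
  have h4 : ((((x - N) * N : ℕ)) : ℝ) ≤ (((((x - N) * N) / (x + N) + 1) * (x + N) : ℕ) : ℝ) := by
    exact_mod_cast h3.le
  rw [Nat.cast_mul (x - N) N, Nat.cast_sub h0, Nat.cast_mul, Nat.cast_add x N, Nat.cast_succ] at h4
  rw [div_mul_eq_mul_div, div_le_iff₀ (by positivity)]
  exact h4

theorem zv (x : ℝ) (h0 : (2:ℝ) ^ 30 ≤ x) (h1 : x ≤ 2 ^ 31) :
    1 ≤ x / 2 ^ 30 ∧ 0 ≤ (x / 2 ^ 30 - 1) / (x / 2 ^ 30 + 1) ∧
      (x / 2 ^ 30 - 1) / (x / 2 ^ 30 + 1) ≤ 1 / 3 ∧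
      (x - 2 ^ 30) / (x + 2 ^ 30) = (x / 2 ^ 30 - 1) / (x / 2 ^ 30 + 1) := by
  have hz1 : 1 ≤ x / 2 ^ 30 := by rw [le_div_iff₀ (by positivity)]; linarith
  have hz2 : x / 2 ^ 30 ≤ 2 := by rw [div_le_iff₀ (by positivity)]; linarith
  refine ⟨hz1, div_nonneg (by linarith) (by linarith), ?_, ?_⟩
  · rw [div_le_iff₀ (by linarith)]; linarith
  · have hx : (0:ℝ) < x := by linarith [show (0:ℝ) < 2 ^ 30 by positivity]
    field_simp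

theorem lg_lo (hS : S_SER) (x : ℕ) (h0 : 2 ^ 30 ≤ x) (h1 : x ≤ 2 ^ 31) :
    (lgLo x : ℝ) ≤ Real.logb 2 ((x : ℝ) / 2 ^ 30) * 2 ^ 30 := by
  have hx0 : (2:ℝ) ^ 30 ≤ x := by exact_mod_cast h0
  have hx1 : (x:ℝ) ≤ 2 ^ 31 := by exact_mod_cast h1
  obtain ⟨z1, z2, z3, z4⟩ := zv x hx0 hx1
  rw [log_ser hS _ z1]
  have hu := u_lo x (2 ^ 30) h0
  have hN : ((2 ^ 30 : ℕ) : ℝ) = 2 ^ 30 := by norm_num
  rw [hN, z4] at hu
  refine LO_real hS _ z2 z3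
    (Nat.div (Nat.mul (Nat.sub x (2 ^ 30)) (2 ^ 30)) (Nat.add x (2 ^ 30)))
    (dn (Nat.mul (Nat.div (Nat.mul (Nat.sub x (2 ^ 30)) (2 ^ 30)) (Nat.add x (2 ^ 30)))
      (Nat.div (Nat.mul (Nat.sub x (2 ^ 30)) (2 ^ 30)) (Nat.add x (2 ^ 30)))))
    (serLo 2 (dn (Nat.mul (Nat.div (Nat.mul (Nat.sub x (2 ^ 30)) (2 ^ 30)) (Nat.add x (2 ^ 30)))
      (Nat.div (Nat.mul (Nat.sub x (2 ^ 30)) (2 ^ 30)) (Nat.add x (2 ^ 30))))) 14 0)
    (dn (Nat.mul (Nat.mul 2 (Nat.div (Nat.mul (Nat.sub x (2 ^ 30)) (2 ^ 30)) (Nat.add x (2 ^ 30))))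
      (serLo 2 (dn (Nat.mul (Nat.div (Nat.mul (Nat.sub x (2 ^ 30)) (2 ^ 30)) (Nat.add x (2 ^ 30)))
      (Nat.div (Nat.mul (Nat.sub x (2 ^ 30)) (2 ^ 30)) (Nat.add x (2 ^ 30))))) 14 0)))
    _ hu ?_ ?_ ?_ ?_
  · have h := dn_le (Nat.mul (Nat.div (Nat.mul (Nat.sub x (2 ^ 30)) (2 ^ 30)) (Nat.add x (2 ^ 30)))
      (Nat.div (Nat.mul (Nat.sub x (2 ^ 30)) (2 ^ 30)) (Nat.add x (2 ^ 30))))
    rwa [cast_mul'] at h
  · intro h
    exact (hS.1 _ h 14).1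
  · have h := dn_le (Nat.mul (Nat.mul 2 (Nat.div (Nat.mul (Nat.sub x (2 ^ 30)) (2 ^ 30)) (Nat.add x (2 ^ 30))))
      (serLo 2 (dn (Nat.mul (Nat.div (Nat.mul (Nat.sub x (2 ^ 30)) (2 ^ 30)) (Nat.add x (2 ^ 30)))
      (Nat.div (Nat.mul (Nat.sub x (2 ^ 30)) (2 ^ 30)) (Nat.add x (2 ^ 30))))) 14 0))
    rw [cast_mul', cast_mul'] at h
    exact_mod_cast h
  · have h := dn_le (Nat.mul (dn (Nat.mul (Nat.mul 2 (Nat.div (Nat.mul (Nat.sub x (2 ^ 30)) (2 ^ 30)) (Nat.add x (2 ^ 30))))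
      (serLo 2 (dn (Nat.mul (Nat.div (Nat.mul (Nat.sub x (2 ^ 30)) (2 ^ 30)) (Nat.add x (2 ^ 30)))
      (Nat.div (Nat.mul (Nat.sub x (2 ^ 30)) (2 ^ 30)) (Nat.add x (2 ^ 30))))) 14 0))) 1549082004)
    rw [cast_mul'] at h
    exact h

theorem lg_hi (hS : S_SER) (x : ℕ) (h0 : 2 ^ 30 ≤ x) (h1 : x ≤ 2 ^ 31) :
    Real.logb 2 ((x : ℝ) / 2 ^ 30) * 2 ^ 30 ≤ (lgHi x : ℝ) := by
  have hx0 : (2:ℝ) ^ 30 ≤ x := by exact_mod_cast h0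
  have hx1 : (x:ℝ) ≤ 2 ^ 31 := by exact_mod_cast h1
  obtain ⟨z1, z2, z3, z4⟩ := zv x hx0 hx1
  rw [log_ser hS _ z1]
  have hu := u_lo x (2 ^ 30) h0
  have hu' := u_hi x (2 ^ 30) h0 (by norm_num)
  have hN : ((2 ^ 30 : ℕ) : ℝ) = 2 ^ 30 := by norm_num
  rw [hN, z4] at hu hu'
  refine HI_real hS _ z2 z3
    (Nat.add (Nat.div (Nat.mul (Nat.sub x (2 ^ 30)) (2 ^ 30)) (Nat.add x (2 ^ 30))) 1)
    (Nat.add (dn (Nat.mul (Nat.add (Nat.div (Nat.mul (Nat.sub x (2 ^ 30)) (2 ^ 30)) (Nat.add x (2 ^ 30))) 1)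
      (Nat.add (Nat.div (Nat.mul (Nat.sub x (2 ^ 30)) (2 ^ 30)) (Nat.add x (2 ^ 30))) 1))) 1)
    (serHi 2 (Nat.add (dn (Nat.mul (Nat.add (Nat.div (Nat.mul (Nat.sub x (2 ^ 30)) (2 ^ 30)) (Nat.add x (2 ^ 30))) 1)
      (Nat.add (Nat.div (Nat.mul (Nat.sub x (2 ^ 30)) (2 ^ 30)) (Nat.add x (2 ^ 30))) 1))) 1) 14 0)
    (Nat.add (dn (Nat.mul (Nat.mul 2 (Nat.add (Nat.div (Nat.mul (Nat.sub x (2 ^ 30)) (2 ^ 30)) (Nat.add x (2 ^ 30))) 1))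
      (serHi 2 (Nat.add (dn (Nat.mul (Nat.add (Nat.div (Nat.mul (Nat.sub x (2 ^ 30)) (2 ^ 30)) (Nat.add x (2 ^ 30))) 1)
      (Nat.add (Nat.div (Nat.mul (Nat.sub x (2 ^ 30)) (2 ^ 30)) (Nat.add x (2 ^ 30))) 1))) 1) 14 0))) 1)
    _ ?_ ?_ ?_ ?_ ?_ ?_ ?_
  · rw [cast_add1]; exact hu'
  · rw [cast_add1]; linarith
  · have h := lt_dn (Nat.mul (Nat.add (Nat.div (Nat.mul (Nat.sub x (2 ^ 30)) (2 ^ 30)) (Nat.add x (2 ^ 30))) 1)
      (Nat.add (Nat.div (Nat.mul (Nat.sub x (2 ^ 30)) (2 ^ 30)) (Nat.add x (2 ^ 30))) 1))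
    rw [cast_mul'] at h
    rw [cast_add1 (dn _)]
    exact h
  · have h := dn_le (Nat.mul (Nat.add (Nat.div (Nat.mul (Nat.sub x (2 ^ 30)) (2 ^ 30)) (Nat.add x (2 ^ 30))) 1)
      (Nat.add (Nat.div (Nat.mul (Nat.sub x (2 ^ 30)) (2 ^ 30)) (Nat.add x (2 ^ 30))) 1))
    rw [cast_mul'] at h
    rw [cast_add1 (dn _), add_sub_cancel_right]
    exact h
  · intro h
    exact (hS.1 _ h 14).2
  · have h := lt_dn (Nat.mul (Nat.mul 2 (Nat.add (Nat.div (Nat.mul (Nat.sub x (2 ^ 30)) (2 ^ 30)) (Nat.add x (2 ^ 30))) 1))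
      (serHi 2 (Nat.add (dn (Nat.mul (Nat.add (Nat.div (Nat.mul (Nat.sub x (2 ^ 30)) (2 ^ 30)) (Nat.add x (2 ^ 30))) 1)
      (Nat.add (Nat.div (Nat.mul (Nat.sub x (2 ^ 30)) (2 ^ 30)) (Nat.add x (2 ^ 30))) 1))) 1) 14 0))
    rw [cast_mul', cast_mul'] at h
    rw [cast_add1 (dn _)]
    exact_mod_cast h
  · have h := lt_dn (Nat.mul (Nat.add (dn (Nat.mul (Nat.mul 2 (Nat.add (Nat.div (Nat.mul (Nat.sub x (2 ^ 30)) (2 ^ 30)) (Nat.add x (2 ^ 30))) 1))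
      (serHi 2 (Nat.add (dn (Nat.mul (Nat.add (Nat.div (Nat.mul (Nat.sub x (2 ^ 30)) (2 ^ 30)) (Nat.add x (2 ^ 30))) 1)
      (Nat.add (Nat.div (Nat.mul (Nat.sub x (2 ^ 30)) (2 ^ 30)) (Nat.add x (2 ^ 30))) 1))) 1) 14 0))) 1) 1549082006)
    rw [cast_mul', ← cast_add1 (dn _)] at h
    exact h

theorem lp_bds (hS : S_SER) (y : ℕ) (hy : y ≤ 2 ^ 30) :
    (lpLo y : ℝ) ≤ lp ((y : ℝ) / 2 ^ 30) * 2 ^ 30 ∧ lp ((y : ℝ) / 2 ^ 30) * 2 ^ 30 ≤ (lpHi y : ℝ) := by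
  have e : lp ((y : ℝ) / 2 ^ 30) = Real.logb 2 (((2 ^ 30 + y : ℕ) : ℝ) / 2 ^ 30) := by
    unfold lp
    rw [Nat.cast_add, add_div]
    norm_num
  rw [e]
  have h1 : 2 ^ 30 ≤ 2 ^ 30 + y := Nat.le_add_right _ _
  have h2 : 2 ^ 30 + y ≤ 2 ^ 31 := by
    calc 2 ^ 30 + y ≤ 2 ^ 30 + 2 ^ 30 := Nat.add_le_add_left hy _
      _ = 2 ^ 31 := by norm_num
  have hx' : Nat.add 1073741824 y = 2 ^ 30 + y := by
    show 1073741824 + y = 2 ^ 30 + y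
    norm_num
  have e1 : lpLo y = lgLo (2 ^ 30 + y) := by
    show lgLo (Nat.add 1073741824 y) = _
    rw [hx']
  have e2 : lpHi y = lgHi (2 ^ 30 + y) := by
    show lgHi (Nat.add 1073741824 y) = _
    rw [hx']
  rw [e1, e2]
  generalize 2 ^ 30 + y = x at h1 h2
  exact ⟨lg_lo hS x h1 h2, lg_hi hS x h1 h2⟩

theorem lm_bds (hS : S_SER) (y : ℕ) (hy : y < 2 ^ 30) :
    (LLo y : ℝ) ≤ - lm ((y : ℝ) / 2 ^ 30) * 2 ^ 30 ∧
      - lm ((y : ℝ) / 2 ^ 30) * 2 ^ 30 ≤ (LHi y : ℝ) := by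
  obtain ⟨n, hn⟩ : ∃ n : ℕ, n = 2 ^ 30 - y := ⟨_, rfl⟩
  have hn0 : n ≠ 0 := by omega
  have hn1 : n ≤ 2 ^ 30 := by omega
  obtain ⟨k, hk⟩ : ∃ k : ℕ, k = 30 - Nat.log2 n := ⟨_, rfl⟩
  obtain ⟨g, hg⟩ : ∃ g : ℕ, g = Nat.log2 n := ⟨_, rfl⟩
  have hg1 : 2 ^ g ≤ n := by rw [hg]; exact Nat.log2_self_le hn0
  have hg2 : n < 2 ^ (g + 1) := by rw [hg]; exact Nat.lt_log2_self
  rw [← hg] at hk
  have hlog : g ≤ 30 := (Nat.pow_le_pow_iff_right (by norm_num)).1 (hg1.trans hn1)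
  have hgk : g + k = 30 := by omega
  have hlo : 2 ^ 30 ≤ n * 2 ^ k := by
    rw [← hgk, pow_add]
    exact Nat.mul_le_mul_right _ hg1
  have hhi : n * 2 ^ k ≤ 2 ^ 31 := by
    have e31 : 31 = (g + 1) + k := by omega
    rw [e31, pow_add]
    exact Nat.mul_le_mul_right _ hg2.le
  obtain ⟨N, hN⟩ : ∃ N : ℕ, N = n * 2 ^ k := ⟨_, rfl⟩
  have hsh : Nat.shiftLeft n k = N := by rw [hN]; exact Nat.shiftLeft_eq n k
  have hn' : Nat.sub 1073741824 y = n := hn.symm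
  have hk' : Nat.sub 30 (Nat.log2 n) = k := by rw [← hg]; exact hk.symm
  have e1 : LLo y = Nat.sub (Nat.mul k 1073741824) (lgHi N) := by
    show Nat.sub (Nat.mul (Nat.sub 30 (Nat.log2 (Nat.sub 1073741824 y))) 1073741824)
      (lgHi (Nat.shiftLeft (Nat.sub 1073741824 y) (Nat.sub 30 (Nat.log2 (Nat.sub 1073741824 y))))) = _
    rw [hn', hk', hsh]
  have e2 : LHi y = Nat.sub (Nat.mul k 1073741824) (lgLo N) := by
    show Nat.sub (Nat.mul (Nat.sub 30 (Nat.log2 (Nat.sub 1073741824 y))) 1073741824)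
      (lgLo (Nat.shiftLeft (Nat.sub 1073741824 y) (Nat.sub 30 (Nat.log2 (Nat.sub 1073741824 y))))) = _
    rw [hn', hk', hsh]
  have hL1 := lg_lo hS (n * 2 ^ k) hlo hhi
  have hL2 := lg_hi hS (n * 2 ^ k) hlo hhi
  have hnc : (n : ℝ) = 2 ^ 30 - y := by
    rw [hn, Nat.cast_sub hy.le]
    norm_num
  have hnpos : (0:ℝ) < n := by exact_mod_cast Nat.pos_of_ne_zero hn0
  have e3 : - lm ((y : ℝ) / 2 ^ 30) = (k : ℝ) - Real.logb 2 ((N : ℝ) / 2 ^ 30) := by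
    have h1 : (1 : ℝ) - (y : ℝ) / 2 ^ 30 = (n : ℝ) / 2 ^ 30 := by
      rw [hnc]; field_simp
    unfold lm
    rw [h1]
    have h2 : ((N : ℝ) / 2 ^ 30) = (n : ℝ) / 2 ^ 30 * 2 ^ k := by
      rw [hN, Nat.cast_mul, Nat.cast_pow]; push_cast; ring
    rw [h2, Real.logb_mul (by positivity) (by positivity)]
    have h3 : Real.logb 2 ((2:ℝ) ^ k) = k := by
      rw [Real.logb_pow]; simp
    rw [h3]; ring
  have hpos : 0 ≤ - lm ((y : ℝ) / 2 ^ 30) := by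
    unfold lm
    have : Real.logb 2 (1 - (y : ℝ) / 2 ^ 30) ≤ 0 := by
      apply Real.logb_nonpos (by norm_num)
      · have : (y : ℝ) / 2 ^ 30 ≤ 1 := by
          rw [div_le_one (by positivity)]; exact_mod_cast hy.le
        linarith
      · have : 0 ≤ (y : ℝ) / 2 ^ 30 := by positivity
        linarith
    linarith
  rw [← hN] at hL1 hL2
  have hM : ((Nat.mul k 1073741824 : ℕ) : ℝ) = (k : ℝ) * 2 ^ 30 := by
    rw [cast_mul']; norm_num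
  rw [e1, e2]
  generalize hG : Nat.mul k 1073741824 = G at hM
  generalize lgHi N = H1 at hL2
  generalize lgLo N = H2 at hL1
  have hpos' := hpos
  rw [e3] at hpos' ⊢
  constructor
  · rcases le_total H1 G with h | h
    · show ((G - H1 : ℕ) : ℝ) ≤ _
      rw [Nat.cast_sub h]
      linarith
    · show ((G - H1 : ℕ) : ℝ) ≤ _
      rw [Nat.sub_eq_zero_of_le h, Nat.cast_zero]
      positivity
  · have h : (G : ℝ) - (H2 : ℝ) ≤ ((G - H2 : ℕ) : ℝ) := by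
      rcases le_total H2 G with h | h
      · rw [Nat.cast_sub h]
      · rw [Nat.sub_eq_zero_of_le h, Nat.cast_zero]
        have : (G : ℝ) ≤ (H2 : ℝ) := by exact_mod_cast h
        linarith
    refine le_trans ?_ h
    linarith

theorem lp_concave : ConcaveOn ℝ (Set.Ico 0 (1 : ℝ)) lp := by
  refine ⟨convex_Ico 0 1, ?_⟩
  intro x hx y hy a b ha hb hab
  have h := (strictConcaveOn_log_Ioi.concaveOn).2 (x := 1 + x) (y := 1 + y)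
    (by show (0:ℝ) < 1 + x; linarith [hx.1]) (by show (0:ℝ) < 1 + y; linarith [hy.1]) ha hb hab
  have h0 : (0:ℝ) < Real.log 2 := Real.log_pos (by norm_num)
  simp only [smul_eq_mul] at h ⊢
  have e : a * (1 + x) + b * (1 + y) = 1 + (a * x + b * y) := by
    linear_combination hab
  rw [e] at h
  unfold lp Real.logb
  rw [mul_div_assoc', mul_div_assoc', ← add_div]
  exact div_le_div_of_nonneg_right h h0.le

theorem lm_convex : ConvexOn ℝ (Set.Ico 0 (1 : ℝ)) (fun y => - lm y) := by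
  refine ⟨convex_Ico 0 1, ?_⟩
  intro x hx y hy a b ha hb hab
  have h := (strictConcaveOn_log_Ioi.concaveOn).2 (x := 1 - x) (y := 1 - y)
    (by show (0:ℝ) < 1 - x; linarith [hx.2]) (by show (0:ℝ) < 1 - y; linarith [hy.2]) ha hb hab
  have h0 : (0:ℝ) < Real.log 2 := Real.log_pos (by norm_num)
  simp only [smul_eq_mul] at h ⊢
  have e : a * (1 - x) + b * (1 - y) = 1 - (a * x + b * y) := by
    linear_combination hab
  rw [e] at h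
  unfold lm Real.logb
  have h2 := div_le_div_of_nonneg_right h h0.le
  rw [add_div, mul_div_assoc, mul_div_assoc] at h2
  linarith

theorem TLG_proved (hS : S_SER) : S_LG := by
  refine ⟨lp_bds hS, lm_bds hS, lp_concave, ?_, lm_convex, ?_⟩
  · intro x hx y hy hxy
    unfold lp
    exact Real.logb_le_logb_of_le (by norm_num) (by linarith [hx.1]) (by linarith)
  · intro x hx y hy hxy
    show - lm x ≤ - lm y
    unfold lm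
    have := Real.logb_le_logb_of_le (b := 2) (x := 1 - y) (y := 1 - x) (by norm_num)
      (by linarith [hy.2]) (by linarith)
    linarith

end Pool.MP324
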