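import Pool.Agent.H77.TL.ToolStm

set_option autoImplicit false

namespace Pool.MP324

section
variable (a b : ℝ)

def TT : Type := {p : A × ℝ × ℝ // Rel a b p.1 p.2.1 p.2.2}

variable {a b}

noncomputable def opsT (hL : S_LIN) (hM : S_MUL) (hI : S_Rinv) {R1 R2 : ℕ} (hd : Disp R1 R2 a b) : Ops (TT a b) where
  add p q := ⟨(A.add p.1.1 q.1.1, p.1.2.1 + q.1.2.1, p.1.2.2 + q.1.2.2),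
    hL.2.2.1 a b _ _ _ _ _ _ p.2 q.2⟩
  sub p q := ⟨(A.sub p.1.1 q.1.1, p.1.2.1 - q.1.2.1, p.1.2.2 - q.1.2.2),
    hL.2.2.2.1 a b _ _ _ _ _ _ p.2 q.2⟩
  neg p := ⟨(A.neg p.1.1, - p.1.2.1, - p.1.2.2), hL.2.2.2.2.1 a b _ _ _ p.2⟩
  mul p q := ⟨(A.mul R1 R2 p.1.1 q.1.1, p.1.2.1 * q.1.2.1, p.1.2.2 * q.1.2.2),
    hM.1 R1 R2 a b hd _ _ _ _ _ _ p.2 q.2⟩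
  inv p := ⟨(A.inv R1 R2 p.1.1, (p.1.2.1)⁻¹, (p.1.2.2)⁻¹), hI R1 R2 a b hd _ _ _ p.2⟩
  half p := ⟨(A.half p.1.1, p.1.2.1 / 2, p.1.2.2 / 2), hL.2.2.2.2.2.2 a b _ _ _ p.2⟩
  nmul n p := ⟨(A.nmul n p.1.1, (n : ℝ) * p.1.2.1, (n : ℝ) * p.1.2.2),
    hL.2.2.2.2.2.1 a b n _ _ _ p.2⟩
  int n := ⟨(A.int n, (n : ℝ), (n : ℝ)), hL.2.1 a b n⟩

theorem t_PARr2D (hL : S_LIN) (hM : S_MUL) (hI : S_Rinv) : S_PARr2D := by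
  intro R1 R2 a b hd X1 X2 X3 X4 X5 X6 X7 x1 x2 x3 x4 x5 x6 x7 y1 y2 y3 y4 y5 y6 y7 h1 h2 h3 h4 h5 h6 h7
  exact (r2D (opsT hL hM hI hd) ⟨(X1, x1, y1), h1⟩ ⟨(X2, x2, y2), h2⟩ ⟨(X3, x3, y3), h3⟩
    ⟨(X4, x4, y4), h4⟩ ⟨(X5, x5, y5), h5⟩ ⟨(X6, x6, y6), h6⟩ ⟨(X7, x7, y7), h7⟩).2

theorem t_PARr2Y (hL : S_LIN) (hM : S_MUL) (hI : S_Rinv) : S_PARr2Y := by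
  intro R1 R2 a b hd X1 X2 X3 X4 X5 X6 X7 x1 x2 x3 x4 x5 x6 x7 y1 y2 y3 y4 y5 y6 y7 h1 h2 h3 h4 h5 h6 h7
  exact (r2Y (opsT hL hM hI hd) ⟨(X1, x1, y1), h1⟩ ⟨(X2, x2, y2), h2⟩ ⟨(X3, x3, y3), h3⟩
    ⟨(X4, x4, y4), h4⟩ ⟨(X5, x5, y5), h5⟩ ⟨(X6, x6, y6), h6⟩ ⟨(X7, x7, y7), h7⟩).2

theorem t_PARn1D (hL : S_LIN) (hM : S_MUL) (hI : S_Rinv) : S_PARn1D := by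
  intro R1 R2 a b hd X1 X2 X3 X4 X5 X6 X7 x1 x2 x3 x4 x5 x6 x7 y1 y2 y3 y4 y5 y6 y7 h1 h2 h3 h4 h5 h6 h7
  refine ⟨?_, ?_, ?_, ?_⟩
  · exact (n1D (opsT hL hM hI hd) ⟨(X1, x1, y1), h1⟩ ⟨(X2, x2, y2), h2⟩ ⟨(X3, x3, y3), h3⟩
      ⟨(X4, x4, y4), h4⟩ ⟨(X5, x5, y5), h5⟩ ⟨(X6, x6, y6), h6⟩ ⟨(X7, x7, y7), h7⟩).1.2
  · exact (n1D (opsT hL hM hI hd) ⟨(X1, x1, y1), h1⟩ ⟨(X2, x2, y2), h2⟩ ⟨(X3, x3, y3), h3⟩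
      ⟨(X4, x4, y4), h4⟩ ⟨(X5, x5, y5), h5⟩ ⟨(X6, x6, y6), h6⟩ ⟨(X7, x7, y7), h7⟩).2.1.2
  · exact (n1D (opsT hL hM hI hd) ⟨(X1, x1, y1), h1⟩ ⟨(X2, x2, y2), h2⟩ ⟨(X3, x3, y3), h3⟩
      ⟨(X4, x4, y4), h4⟩ ⟨(X5, x5, y5), h5⟩ ⟨(X6, x6, y6), h6⟩ ⟨(X7, x7, y7), h7⟩).2.2.1.2
  · exact (n1D (opsT hL hM hI hd) ⟨(X1, x1, y1), h1⟩ ⟨(X2, x2, y2), h2⟩ ⟨(X3, x3, y3), h3⟩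
      ⟨(X4, x4, y4), h4⟩ ⟨(X5, x5, y5), h5⟩ ⟨(X6, x6, y6), h6⟩ ⟨(X7, x7, y7), h7⟩).2.2.2.2

theorem t_PARn1Y (hL : S_LIN) (hM : S_MUL) (hI : S_Rinv) : S_PARn1Y := by
  intro R1 R2 a b hd X1 X2 X3 X4 X5 X6 X7 x1 x2 x3 x4 x5 x6 x7 y1 y2 y3 y4 y5 y6 y7 h1 h2 h3 h4 h5 h6 h7
  refine ⟨?_, ?_, ?_, ?_⟩
  · exact (n1Y (opsT hL hM hI hd) ⟨(X1, x1, y1), h1⟩ ⟨(X2, x2, y2), h2⟩ ⟨(X3, x3, y3), h3⟩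
      ⟨(X4, x4, y4), h4⟩ ⟨(X5, x5, y5), h5⟩ ⟨(X6, x6, y6), h6⟩ ⟨(X7, x7, y7), h7⟩).1.2
  · exact (n1Y (opsT hL hM hI hd) ⟨(X1, x1, y1), h1⟩ ⟨(X2, x2, y2), h2⟩ ⟨(X3, x3, y3), h3⟩
      ⟨(X4, x4, y4), h4⟩ ⟨(X5, x5, y5), h5⟩ ⟨(X6, x6, y6), h6⟩ ⟨(X7, x7, y7), h7⟩).2.1.2
  · exact (n1Y (opsT hL hM hI hd) ⟨(X1, x1, y1), h1⟩ ⟨(X2, x2, y2), h2⟩ ⟨(X3, x3, y3), h3⟩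
      ⟨(X4, x4, y4), h4⟩ ⟨(X5, x5, y5), h5⟩ ⟨(X6, x6, y6), h6⟩ ⟨(X7, x7, y7), h7⟩).2.2.1.2
  · exact (n1Y (opsT hL hM hI hd) ⟨(X1, x1, y1), h1⟩ ⟨(X2, x2, y2), h2⟩ ⟨(X3, x3, y3), h3⟩
      ⟨(X4, x4, y4), h4⟩ ⟨(X5, x5, y5), h5⟩ ⟨(X6, x6, y6), h6⟩ ⟨(X7, x7, y7), h7⟩).2.2.2.2

theorem TPAR_proved (hL : S_LIN) (hM : S_MUL) (hI : S_Rinv) : S_PAR :=
  ⟨t_PARn1D hL hM hI, t_PARn1Y hL hM hI, t_PARr2D hL hM hI, t_PARr2Y hL hM hI⟩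

end

end Pool.MP324
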